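import Pool.Agent.Helper26.LN6.Base

/-! LN6: classes, largest classes. -/

open scoped Classical
open Finset

namespace LN6

namespace WSys

variable {k : ℕ} {Γ F : Type} [Group Γ] [MulAction Γ F] [Fintype F] {W : WSys k Γ F} {b : ℝ}

theorem mem_cl {h : Γ} {x y : F} : y ∈ W.cl h x ↔ W.E h x y := by
  simp [cl]

theorem self_mem_cl (h : Γ) (x : F) : x ∈ W.cl h x := mem_cl.2 (E_refl h x)

theorem Ax.cl_eq (A : W.Ax b) {h : Γ} (hh : W.Arc h) {x y : F} (hE : W.E h x y) : W.cl h x = W.cl h y := by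
  ext z
  rw [mem_cl, mem_cl]
  exact ⟨fun h1 => A.E_trans hh hE.symm h1, fun h1 => A.E_trans hh hE h1⟩

theorem cl_conj (g h : Γ) (x : F) : W.cl (g * h * g⁻¹) (g • x) = (W.cl h x).image (g • ·) := by
  ext z
  rw [mem_cl, mem_image]
  constructor
  · intro hz
    refine ⟨g⁻¹ • z, ?_, by simp⟩
    rw [mem_cl, ← W.E_conj g h, smul_inv_smul]
    exact hz
  · rintro ⟨y, hy, rfl⟩
    rw [W.E_conj]
    exact mem_cl.1 hy

theorem card_cl_conj (g h : Γ) (x : F) : (W.cl (g * h * g⁻¹) (g • x)).card = (W.cl h x).card := by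
  rw [cl_conj, card_image_of_injective _ (MulAction.injective g)]

theorem card_cl_smul {g h : Γ} (hc : g * h = h * g) (x : F) :
    (W.cl h (g • x)).card = (W.cl h x).card := by
  have := W.card_cl_conj g h x
  rwa [conj_comm_eq hc] at this

theorem B_conj (g h : Γ) (x : F) : g • x ∈ W.B (g * h * g⁻¹) ↔ x ∈ W.B h := by
  show (W.cl (g * h * g⁻¹) (g • x)).card = W.r ↔ (W.cl h x).card = W.r
  rw [card_cl_conj]

theorem B_conj' (g h : Γ) (x : F) : x ∈ W.B (g * h * g⁻¹) ↔ g⁻¹ • x ∈ W.B h := by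
  rw [← B_conj g h (g⁻¹ • x), smul_inv_smul]

theorem B_smul {g h : Γ} (hc : g * h = h * g) (x : F) : g • x ∈ W.B h ↔ x ∈ W.B h := by
  have := W.B_conj g h x
  rwa [conj_comm_eq hc] at this

theorem Ax.B_of_E (A : W.Ax b) {h : Γ} (hh : W.Arc h) {x y : F} (hE : W.E h x y) (hx : x ∈ W.B h) :
    y ∈ W.B h := by
  show (W.cl h y).card = W.r
  rw [← A.cl_eq hh hE]
  exact hx

theorem Ax.B_iff_of_E (A : W.Ax b) {h : Γ} (hh : W.Arc h) {x y : F} (hE : W.E h x y) :
    x ∈ W.B h ↔ y ∈ W.B h := ⟨A.B_of_E hh hE, A.B_of_E hh hE.symm⟩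

theorem card_cl_le (h : Γ) (hh : W.Arc h) (x : F) : (W.cl h x).card ≤ W.r := by
  obtain ⟨g, rfl⟩ := hh
  have h1 : (W.cl (g * W.s 0 * g⁻¹) (g • (g⁻¹ • x))).card = (W.cl (W.s 0) (g⁻¹ • x)).card :=
    card_cl_conj g _ _
  rw [smul_inv_smul] at h1
  rw [h1]
  exact le_sup (f := fun x => (W.cl (W.s 0) x).card) (mem_univ _)

/-- if a class contains a set of more than `r` elements: contradiction. -/
theorem not_subset_of_card {h : Γ} (hh : W.Arc h) {x : F} {S : Finset F} (hS : S ⊆ W.cl h x)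
    (hc : W.r < S.card) : False :=
  absurd (card_le_card hS) (by have := W.card_cl_le h hh x; omega)

/-- a class which contains a largest set is largest and equal to it. -/
theorem mem_B_of_subset {h : Γ} (hh : W.Arc h) {x : F} {S : Finset F} (hS : S ⊆ W.cl h x)
    (hc : S.card = W.r) : x ∈ W.B h ∧ W.cl h x = S := by
  have h1 := W.card_cl_le h hh x
  have h2 := card_le_card hS
  have h3 : W.cl h x = S := (eq_of_subset_of_card_le hS (by omega)).symm
  exact ⟨by show (W.cl h x).card = W.r; rw [h3, hc], h3⟩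

/-- every block meets `B h`. -/
theorem Ax.exists_B (A : W.Ax b) {h : Γ} (hh : W.Arc h) (x : F) : ∃ y ∈ W.B h, W.R x y := by
  obtain ⟨g, rfl⟩ := hh
  have hne : (univ : Finset F).Nonempty := ⟨x, mem_univ _⟩
  obtain ⟨y, _, hy⟩ := exists_mem_eq_sup univ hne (fun x => (W.cl (W.s 0) x).card)
  obtain ⟨j, hj⟩ := A.blk y (g⁻¹ • x)
  refine ⟨g • (W.s 0 ^ j • y), ?_, ?_⟩
  · rw [B_conj, B_smul ((Commute.refl (W.s 0)).pow_left j)]
    exact hy.symm
  · have := W.R_smul g hj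
    rw [smul_inv_smul] at this
    exact W.R_symm this

/-- no block is one class. -/
theorem Ax.exists_not_E (A : W.Ax b) {h : Γ} (hh : W.Arc h) (x : F) : ∃ z, W.R x z ∧ ¬ W.E h x z := by
  obtain ⟨g, rfl⟩ := hh
  by_contra hcon
  push Not at hcon
  obtain ⟨x0, y0, hR, hn, h0⟩ := A.zero
  -- all pairs in the block of `g⁻¹ x` are related
  obtain ⟨j, hj⟩ := A.blk x0 (g⁻¹ • x)
  have key : ∀ u, W.R (g⁻¹ • x) u → W.E (W.s 0) (g⁻¹ • x) u := by
    intro u hu
    have h1 := W.R_smul g hu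
    rw [smul_inv_smul] at h1
    have h2 := hcon _ h1
    rw [← W.E_conj g, smul_inv_smul]
    exact h2
  have h1 := key _ (W.R_symm hj)
  have hj' := W.R_trans (W.R_smul (W.s 0 ^ j) (W.R_symm hR)) hj
  have h2 := key _ (W.R_symm hj')
  have h3 := A.E_trans W.arc_s0 h1.symm h2
  rw [E_smul ((Commute.refl (W.s 0)).pow_left j)] at h3
  rcases h3 with h3 | h3
  · exact hn h3
  · rw [h0] at h3; exact lt_irrefl _ h3.2

theorem Ax.isolated (A : W.Ax b) {h h' : Γ} (hk : W.Arc2 h h') {x z : F} (hR : W.R x z)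
    (hz : ¬ W.E h x z) (hp : 0 < W.v h' x z) : insert z (W.cl h x) ⊆ W.cl h' x := by
  intro u hu
  rw [mem_insert] at hu
  rw [mem_cl]
  rcases hu with rfl | hu
  · exact E_of_pos hR hp
  · rw [mem_cl] at hu
    by_cases hxu : x = u
    · exact Or.inl hxu
    · exact E_of_pos hu.toR (lt_of_lt_of_le hp (A.corner_le hk hu hxu hR hz))

end WSys

end LN6
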