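import Mathlib

/-!
LN6 (memo_LN6_helper26.md): abstract winding systems.

A finite set `F` (labels of roots) with an action of a group `Γ` containing elements `s 0, ..., s (k-2)` which satisfy the
braid relations, an invariant equivalence relation `R` (the blocks), and for every `g : Γ` the mean winding `v g x y` of the
pair `x, y` (same block, different) under `g`.
-/

open scoped Classical
open Finset

namespace LN6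

structure WSys (k : ℕ) (Γ F : Type) [Group Γ] [MulAction Γ F] where
  s : ℕ → Γ
  braid : ∀ i, i + 2 < k → s i * s (i + 1) * s i = s (i + 1) * s i * s (i + 1)
  comm : ∀ i j, i + 2 ≤ j → j + 1 < k → s i * s j = s j * s i
  lab : Γ →* Equiv.Perm ℕ
  lab_s : ∀ i, i + 1 < k → lab (s i) = Equiv.swap i (i + 1)
  R : F → F → Prop
  R_refl : ∀ x, R x x
  R_symm : ∀ {x y}, R x y → R y x
  R_trans : ∀ {x y z}, R x y → R y z → R x z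
  R_smul : ∀ (g : Γ) {x y : F}, R x y → R (g • x) (g • y)
  R_s : ∀ (i : ℕ) (x : F), i + 1 < k → R (s i • x) (s 0 • x)
  v : Γ → F → F → ℝ
  v_symm : ∀ g x y, v g x y = v g y x
  v_conj : ∀ (g h : Γ) (x y : F), R x y → x ≠ y → v (h * g * h⁻¹) (h • x) (h • y) = v g x y
  v_mul : ∀ (g h : Γ) (x y : F), R x y → x ≠ y → g * h = h * g →
    v (g * h) x y = v g x y + v h x y
  v_sum : ∀ (O : Finset (F × F)) (g h : Γ), (∀ p ∈ O, R p.1 p.2 ∧ p.1 ≠ p.2) →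
    (∀ p ∈ O, g • p ∈ O) → (∀ p ∈ O, h • p ∈ O) →
    ∑ p ∈ O, v (g * h) p.1 p.2 = ∑ p ∈ O, v g p.1 p.2 + ∑ p ∈ O, v h p.1 p.2

namespace WSys

variable {k : ℕ} {Γ F : Type} [Group Γ] [MulAction Γ F]

/-- `lam m` (`m ≥ 1`): strand `m` runs once around the strands `0, ..., m-1`. -/
def lam (W : WSys k Γ F) : ℕ → Γ
  | 0 => 1
  | 1 => W.s 0 * W.s 0
  | (m + 2) => W.s (m + 1) * lam W (m + 1) * W.s (m + 1)

/-- full twist of the strands `0, ..., m-1`. -/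
def T (W : WSys k Γ F) : ℕ → Γ
  | 0 => 1
  | 1 => 1
  | (m + 2) => T W (m + 1) * lam W (m + 1)

/-- `up i n = s i * s (i+1) * ... * s (i+n-1)`. -/
def up (W : WSys k Γ F) (i : ℕ) : ℕ → Γ
  | 0 => 1
  | (n + 1) => up W i n * W.s (i + n)

/-- the class relation of the generator `h`. -/
def E (W : WSys k Γ F) (h : Γ) (x y : F) : Prop := x = y ∨ (W.R x y ∧ 0 < W.v h x y)

variable [Fintype F]

noncomputable def cl (W : WSys k Γ F) (h : Γ) (x : F) : Finset F := univ.filter fun y => W.E h x y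

/-- the maximal size of an `E (s 0)`-class. -/
noncomputable def r (W : WSys k Γ F) : ℕ := univ.sup fun x => (W.cl (W.s 0) x).card

/-- union of the largest classes of the generator `h` (a conjugate of `s 0`). -/
def B (W : WSys k Γ F) (h : Γ) : Set F := {x | (W.cl h x).card = W.r}

/-- the `b`-balls of `v (T m)` around the largest classes of `s 0`. -/
def Q (W : WSys k Γ F) (b : ℝ) (m : ℕ) : Set F :=
  {x | x ∈ W.B (W.s 0) ∨ ∃ y ∈ W.B (W.s 0), W.R x y ∧ b ≤ W.v (W.T m) x y}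

/-- subgroup generated by `s 0, ..., s (m-2)`. -/
def Bm (W : WSys k Γ F) (m : ℕ) : Subgroup Γ := Subgroup.closure {g | ∃ i, i + 1 < m ∧ g = W.s i}

/-- the centraliser type group of `s 0`. -/
def L (W : WSys k Γ F) : Subgroup Γ :=
  Subgroup.closure ({W.s 0, W.lam 2} ∪ {g | ∃ i, 2 ≤ i ∧ i + 1 < k ∧ g = W.s i})

/-- the group of the disc `{0,1,2}`. -/
def L3 (W : WSys k Γ F) : Subgroup Γ :=
  Subgroup.closure ({W.s 0, W.s 1, W.lam 3} ∪ {g | ∃ i, 3 ≤ i ∧ i + 1 < k ∧ g = W.s i})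

def zeta (W : WSys k Γ F) : Γ := W.s 3 * W.s 2 * W.s 2 * W.s 3
def gg (W : WSys k Γ F) : Γ := (W.s 2 * W.s 3)⁻¹
def zeta' (W : WSys k Γ F) : Γ := W.gg * W.lam 2 * (W.gg)⁻¹
def delta (W : WSys k Γ F) : Γ := W.s 1 * W.s 2 * W.s 0 * W.s 1
def rho (W : WSys k Γ F) : Γ := W.lam 2 * W.up 2 (k - 3)

/-- the common centraliser type group of `s 0` and `s 2`. -/
def H (W : WSys k Γ F) : Subgroup Γ :=
  Subgroup.closure ({W.s 0, W.s 2, W.T 4, W.zeta, W.zeta'} ∪ {g | ∃ i, 4 ≤ i ∧ i + 1 < k ∧ g = W.s i})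

/-- the axioms (gauge `v (s 0) ≥ 0` with minimum `0`). -/
structure Ax (W : WSys k Γ F) (b : ℝ) : Prop where
  k5 : 5 ≤ k
  blk : ∀ x y : F, ∃ j : ℕ, W.R (W.s 0 ^ j • x) y
  nonneg : ∀ x y, W.R x y → x ≠ y → 0 ≤ W.v (W.s 0) x y
  zero : ∃ x y, W.R x y ∧ x ≠ y ∧ W.v (W.s 0) x y = 0
  all : ∀ x y, W.R x y → x ≠ y → W.v (W.T k) x y = b
  ultra : ∀ m, 2 ≤ m → m < k → ∀ x y z, W.R x y → W.R y z → x ≠ y → y ≠ z → x ≠ z →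
    min (W.v (W.T m) x y) (W.v (W.T m) y z) ≤ W.v (W.T m) x z
  corner : ∀ x y z, W.R x y → W.R x z → x ≠ y → x ≠ z → y ≠ z →
    0 ≤ (W.v (W.s 0) x y - W.v (W.s 0) x z) * (W.v (W.s 2) x y - W.v (W.s 2) x z)
  nest : ∀ m, 3 ≤ m → m < k → ∀ x y z, W.R x y → W.R x z → x ≠ y → x ≠ z → y ≠ z →
    0 ≤ (W.v (W.s 0) x y - W.v (W.s 0) x z) * (W.v (W.T m) x y - W.v (W.T m) x z)
  tr : ∀ x, (W.s 0)⁻¹ • W.s 2 • x = x ∨ 0 < W.v (W.s 0) x ((W.s 0)⁻¹ • W.s 2 • x) ∨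
    0 < W.v (W.s 2) x ((W.s 0)⁻¹ • W.s 2 • x)

/-- dichotomy at `s 2` of the `s 0`-class of `x`. -/
def Dich (W : WSys k Γ F) (x : F) : Prop :=
  (∀ u ∈ W.cl (W.s 0) x, u ∈ W.B (W.s 2)) ∨
  ((∀ u ∈ W.cl (W.s 0) x, u ∉ W.B (W.s 2)) ∧
    ∀ u ∈ W.cl (W.s 0) x, ∀ z, W.R u z → z ∉ W.cl (W.s 0) x → W.v (W.s 2) u z = 0)

/-- nice classes (memo section 3), stated for an element of the class. -/
def Nice (W : WSys k Γ F) (x : F) : Prop := x ∉ W.B (W.s 0) ∧ ∀ g ∈ W.L, W.Dich (g • x)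

/-! ### statements -/

def SF3 (W : WSys k Γ F) : Prop := ∀ i, 2 ≤ i → i + 1 < k → ∀ x ∈ W.B (W.s 0), ∀ z, W.R x z →
  ¬ W.E (W.s 0) x z → W.v (W.s i) x z = 0
def STrB (W : WSys k Γ F) : Prop := ∀ i, 2 ≤ i → i + 1 < k → ∀ x ∈ W.B (W.s 0),
  W.E (W.s 0) (W.s 0 • x) (W.s i • x)
def SF3' (W : WSys k Γ F) : Prop := ∀ i m, 2 ≤ m → m ≤ i → i + 1 < k → ∀ x ∈ W.B (W.s i), ∀ z, W.R x z →
  ¬ W.E (W.s i) x z → W.v (W.T m) x z = 0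
def SF2 (W : WSys k Γ F) : Prop := ∀ x, x ∈ W.B (W.s 0) → x ∉ W.B (W.s 2)
def SOne (W : WSys k Γ F) : Prop := ∀ x y, x ∈ W.B (W.s 0) → y ∈ W.B (W.s 0) → W.R x y → W.E (W.s 0) x y
def SV (W : WSys k Γ F) (b : ℝ) : Prop := ∀ m, 4 ≤ m → m < k → ∀ x ∈ W.B (W.s 0), ∀ z ∈ W.B (W.s 2),
  W.R x z → W.v (W.T m) x z = b
/-- levels. -/
def SLV (W : WSys k Γ F) (b : ℝ) (m : ℕ) : Prop := ∀ x y, (∃ g ∈ W.Bm m, x ∈ W.B (g * W.s 0 * g⁻¹)) →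
  (∃ g ∈ W.Bm m, y ∈ W.B (g * W.s 0 * g⁻¹)) → W.R x y → x ≠ y → b ≤ W.v (W.T m) x y
def SLV2 (W : WSys k Γ F) (b : ℝ) : Prop := ∀ x y, x ∈ W.B (W.s 0) → y ∈ W.B (W.s 0) → W.R x y → x ≠ y →
  b ≤ 2 * W.v (W.s 0) x y
/-- properties of the balls `Q m`. -/
def SQ (W : WSys k Γ F) (b : ℝ) (m : ℕ) : Prop :=
  (∀ g ∈ W.Bm m, ∀ x, x ∈ W.Q b m → g • x ∈ W.Q b m) ∧
  (∀ g ∈ W.Bm m, ∀ x, x ∈ W.B (g * W.s 0 * g⁻¹) → x ∈ W.Q b m) ∧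
  (∀ x y, x ∈ W.Q b m → y ∈ W.Q b m → W.R x y → x ≠ y → b ≤ W.v (W.T m) x y) ∧
  (∀ x y, x ∉ W.Q b m → y ∈ W.Q b m → W.R x y → W.v (W.T m) x y = 0)
/-- averages. -/
def SAV (W : WSys k Γ F) (b : ℝ) : Prop := ∀ O : Finset (F × F), (∀ g ∈ W.L, ∀ p ∈ O, g • p ∈ O) →
  (∀ p ∈ O, p.1 ∉ W.B (W.s 0) ∧ p.2 ∈ W.B (W.s 0) ∧ W.R p.1 p.2) →
  ∀ j, 2 ≤ j → j ≤ k → ((k : ℝ) - 2) * ∑ p ∈ O, W.v (W.T j) p.1 p.2 = ((j : ℝ) - 2) * b * O.card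
/-- labels of nice classes. -/
def Lab (W : WSys k Γ F) (b : ℝ) (l : F → ℕ) : Prop := ∀ x, W.Nice x →
  (2 ≤ l x ∧ l x < k) ∧ (∀ g ∈ W.L, l (g • x) = W.lab g (l x)) ∧
  (x ∉ W.Q b (k - 1) ↔ l x = k - 1) ∧ (x ∈ W.B (W.s 2) ↔ (l x = 2 ∨ l x = 3)) ∧
  (∀ y, W.E (W.s 0) x y → l y = l x)
def SUniq (W : WSys k Γ F) (l : F → ℕ) : Prop := ∀ x y, W.Nice x → W.Nice y → W.R x y → l x = l y →
  W.E (W.s 0) x y
def SQ3 (W : WSys k Γ F) (b : ℝ) (l : F → ℕ) : Prop := ∀ x, W.Nice x → l x = 2 → x ∈ W.Q b 3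
def SG9 (W : WSys k Γ F) (l : F → ℕ) : Prop := ∀ x, W.Nice x → 4 ≤ l x → W.cl (W.s 2) x = W.cl (W.s 0) x
def SNE (W : WSys k Γ F) : Prop := ∀ x, x ∈ W.B (W.s 0) ∨ W.Nice x

end WSys

end LN6
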