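import Pool.Agent.Helper26.LN6.Defs
import Pool.Agent.Helper91.LN6.Braid

/-! LN6: basic API for abstract winding systems. -/

open scoped Classical
open Finset

namespace LN6

namespace WSys

variable {k : ℕ} {Γ F : Type} [Group Γ] [MulAction Γ F] (W : WSys k Γ F) {b : ℝ}

/-! ### `v` -/

theorem v_one {x y : F} (h : W.R x y) (hn : x ≠ y) : W.v 1 x y = 0 := by
  have := W.v_mul 1 1 x y h hn rfl
  rw [mul_one] at this
  linarith

theorem v_inv (g : Γ) {x y : F} (h : W.R x y) (hn : x ≠ y) : W.v g⁻¹ x y = - W.v g x y := by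
  have := W.v_mul g g⁻¹ x y h hn (by group)
  rw [mul_inv_cancel, W.v_one h hn] at this
  linarith

theorem v_pow (g : Γ) {x y : F} (h : W.R x y) (hn : x ≠ y) (n : ℕ) : W.v (g ^ n) x y = n * W.v g x y := by
  induction n with
  | zero => simp [W.v_one h hn]
  | succ n ih =>
    rw [pow_succ, W.v_mul _ _ x y h hn ((Commute.refl g).pow_left n), ih]
    push_cast; ring

/-- invariance under commuting elements. -/
theorem v_smul {g h : Γ} (hc : g * h = h * g) {x y : F} (hR : W.R x y) (hn : x ≠ y) :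
    W.v g (h • x) (h • y) = W.v g x y := by
  have := W.v_conj g h x y hR hn
  rwa [← hc, mul_inv_cancel_right] at this

theorem v_conj' (g h : Γ) {x y : F} (hR : W.R x y) (hn : x ≠ y) :
    W.v (h⁻¹ * g * h) x y = W.v g (h • x) (h • y) := by
  have := W.v_conj (h⁻¹ * g * h) h x y hR hn
  rw [← this]
  congr 1
  group

theorem v_conj'' (g h : Γ) {x y : F} (hR : W.R x y) (hn : x ≠ y) :
    W.v (h * g * h⁻¹) x y = W.v g (h⁻¹ • x) (h⁻¹ • y) := by
  have := W.v_conj' g h⁻¹ hR hn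
  rw [inv_inv] at this
  exact this

theorem R_smul_iff (g : Γ) {x y : F} : W.R (g • x) (g • y) ↔ W.R x y := by
  constructor
  · intro h
    have := W.R_smul g⁻¹ h
    rwa [inv_smul_smul, inv_smul_smul] at this
  · exact W.R_smul g

/-! ### arcs -/

/-- `h` is a conjugate of `s 0`. -/
def Arc (h : Γ) : Prop := ∃ g : Γ, h = g * W.s 0 * g⁻¹

/-- `(h, h')` is a conjugate of `(s 0, s 2)`. -/
def Arc2 (h h' : Γ) : Prop := ∃ g : Γ, h = g * W.s 0 * g⁻¹ ∧ h' = g * W.s 2 * g⁻¹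

theorem arc_s0 : W.Arc (W.s 0) := ⟨1, by group⟩

theorem Arc.conj {W : WSys k Γ F} {h : Γ} (hh : W.Arc h) (g : Γ) : W.Arc (g * h * g⁻¹) := by
  obtain ⟨g', rfl⟩ := hh
  exact ⟨g * g', by group⟩

theorem Arc2.conj {W : WSys k Γ F} {h h' : Γ} (hh : W.Arc2 h h') (g : Γ) :
    W.Arc2 (g * h * g⁻¹) (g * h' * g⁻¹) := by
  obtain ⟨g', rfl, rfl⟩ := hh
  exact ⟨g * g', by group, by group⟩

theorem s_succ_conj (i : ℕ) (hi : i + 2 < k) :
    W.s (i + 1) = (W.s i * W.s (i + 1)) * W.s i * (W.s i * W.s (i + 1))⁻¹ := by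
  rw [eq_mul_inv_iff_mul_eq, ← mul_assoc, ← W.braid i hi]

theorem s_conj_s_succ (i : ℕ) (hi : i + 2 < k) :
    W.s i = (W.s (i + 1) * W.s i) * W.s (i + 1) * (W.s (i + 1) * W.s i)⁻¹ := by
  rw [eq_mul_inv_iff_mul_eq, ← mul_assoc, W.braid i hi]

theorem arc_s (i : ℕ) (hi : i + 1 < k) : W.Arc (W.s i) := by
  induction i with
  | zero => exact W.arc_s0
  | succ i ih =>
    have := (ih (by omega)).conj (W.s i * W.s (i + 1))
    rwa [← W.s_succ_conj i (by omega)] at this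

theorem Arc2.left {W : WSys k Γ F} {h h' : Γ} (hh : W.Arc2 h h') : W.Arc h := by
  obtain ⟨g, h1, _⟩ := hh
  exact ⟨g, h1⟩

theorem Arc2.right {W : WSys k Γ F} (hk : 4 ≤ k) {h h' : Γ} (hh : W.Arc2 h h') : W.Arc h' := by
  obtain ⟨g, _, h1⟩ := hh
  rw [h1]
  exact (W.arc_s 2 (by omega)).conj g

theorem Arc2.comm {W : WSys k Γ F} (hk : 4 ≤ k) {h h' : Γ} (hh : W.Arc2 h h') : h * h' = h' * h := by
  obtain ⟨g, rfl, rfl⟩ := hh
  have := W.comm 0 2 (by omega) (by omega)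
  calc g * W.s 0 * g⁻¹ * (g * W.s 2 * g⁻¹) = g * (W.s 0 * W.s 2) * g⁻¹ := by group
    _ = g * (W.s 2 * W.s 0) * g⁻¹ := by rw [this]
    _ = _ := by group

theorem delta_s0 (hk : 4 ≤ k) : W.delta * W.s 0 = W.s 2 * W.delta := by
  have h0 := W.braid 0 (by omega)
  have h1 := W.braid 1 (by omega)
  simp only [zero_add, Nat.reduceAdd] at h0 h1
  unfold delta
  calc W.s 1 * W.s 2 * W.s 0 * W.s 1 * W.s 0 = W.s 1 * W.s 2 * (W.s 0 * W.s 1 * W.s 0) := by group
    _ = W.s 1 * W.s 2 * (W.s 1 * W.s 0 * W.s 1) := by rw [h0]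
    _ = (W.s 1 * W.s 2 * W.s 1) * W.s 0 * W.s 1 := by group
    _ = (W.s 2 * W.s 1 * W.s 2) * W.s 0 * W.s 1 := by rw [h1]
    _ = _ := by group

theorem delta_s2 (hk : 4 ≤ k) : W.delta * W.s 2 = W.s 0 * W.delta := by
  have h0 := W.braid 0 (by omega)
  have h1 := W.braid 1 (by omega)
  have hc := W.comm 0 2 (by omega) (by omega)
  simp only [zero_add, Nat.reduceAdd] at h0 h1
  unfold delta
  calc W.s 1 * W.s 2 * W.s 0 * W.s 1 * W.s 2 = W.s 1 * (W.s 2 * W.s 0) * W.s 1 * W.s 2 := by group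
    _ = W.s 1 * (W.s 0 * W.s 2) * W.s 1 * W.s 2 := by rw [hc]
    _ = W.s 1 * W.s 0 * (W.s 2 * W.s 1 * W.s 2) := by group
    _ = W.s 1 * W.s 0 * (W.s 1 * W.s 2 * W.s 1) := by rw [h1]
    _ = (W.s 1 * W.s 0 * W.s 1) * W.s 2 * W.s 1 := by group
    _ = (W.s 0 * W.s 1 * W.s 0) * W.s 2 * W.s 1 := by rw [h0]
    _ = W.s 0 * W.s 1 * (W.s 0 * W.s 2) * W.s 1 := by group
    _ = W.s 0 * W.s 1 * (W.s 2 * W.s 0) * W.s 1 := by rw [hc]
    _ = _ := by group

theorem Arc2.symm {W : WSys k Γ F} (hk : 4 ≤ k) {h h' : Γ} (hh : W.Arc2 h h') : W.Arc2 h' h := by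
  obtain ⟨g, rfl, rfl⟩ := hh
  refine ⟨g * W.delta, ?_, ?_⟩
  · have := W.delta_s0 hk
    calc g * W.s 2 * g⁻¹ = g * (W.s 2 * W.delta) * (g * W.delta)⁻¹ := by group
      _ = g * (W.delta * W.s 0) * (g * W.delta)⁻¹ := by rw [this]
      _ = _ := by group
  · have := W.delta_s2 hk
    calc g * W.s 0 * g⁻¹ = g * (W.s 0 * W.delta) * (g * W.delta)⁻¹ := by group
      _ = g * (W.delta * W.s 2) * (g * W.delta)⁻¹ := by rw [this]
      _ = _ := by group

theorem conj_comm_eq {g h : Γ} (hc : g * h = h * g) : g * h * g⁻¹ = h := by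
  rw [hc, mul_inv_cancel_right]

/-- `(s 0, s j)` for `j ≥ 2`. -/
theorem arc2_zero (j : ℕ) (h2 : 2 ≤ j) (hj : j + 1 < k) : W.Arc2 (W.s 0) (W.s j) := by
  induction j, h2 using Nat.le_induction with
  | base => exact ⟨1, by group, by group⟩
  | succ j h2 ih =>
    have := (ih (by omega)).conj (W.s j * W.s (j + 1))
    rw [← W.s_succ_conj j (by omega)] at this
    have hc : W.s j * W.s (j + 1) * W.s 0 = W.s 0 * (W.s j * W.s (j + 1)) := by
      rw [mul_assoc, ← W.comm 0 (j + 1) (by omega) (by omega), ← mul_assoc, ← W.comm 0 j (by omega) (by omega),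
        mul_assoc]
    rwa [conj_comm_eq hc] at this

/-- `(s i, s j)` for `i + 2 ≤ j`. -/
theorem arc2_lt (i j : ℕ) (hij : i + 2 ≤ j) (hj : j + 1 < k) : W.Arc2 (W.s i) (W.s j) := by
  induction i with
  | zero => exact W.arc2_zero j (by omega) hj
  | succ i ih =>
    have := (ih (by omega)).conj (W.s i * W.s (i + 1))
    rw [← W.s_succ_conj i (by omega)] at this
    have hc : W.s i * W.s (i + 1) * W.s j = W.s j * (W.s i * W.s (i + 1)) := by
      rw [mul_assoc, W.comm (i + 1) j (by omega) (by omega), ← mul_assoc, W.comm i j (by omega) (by omega),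
        mul_assoc]
    rwa [conj_comm_eq hc] at this

theorem arc2_gt (i j : ℕ) (hij : i + 2 ≤ j) (hj : j + 1 < k) : W.Arc2 (W.s j) (W.s i) :=
  (W.arc2_lt i j hij hj).symm (by omega)

/-! ### the class relation -/

variable {W}

theorem E.toR {h : Γ} {x y : F} (he : W.E h x y) : W.R x y := by
  rcases he with rfl | he
  · exact W.R_refl _
  · exact he.1

theorem E_refl (h : Γ) (x : F) : W.E h x x := Or.inl rfl

theorem E.symm {h : Γ} {x y : F} (he : W.E h x y) : W.E h y x := by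
  rcases he with rfl | he
  · exact Or.inl rfl
  · exact Or.inr ⟨W.R_symm he.1, by rw [W.v_symm]; exact he.2⟩

theorem E_conj (g h : Γ) {x y : F} : W.E (g * h * g⁻¹) (g • x) (g • y) ↔ W.E h x y := by
  unfold E
  rw [smul_left_cancel_iff, W.R_smul_iff]
  by_cases hxy : x = y
  · simp [hxy]
  · constructor
    · rintro (h' | ⟨hR, h'⟩)
      · exact absurd h' hxy
      · rw [W.v_conj h g x y hR hxy] at h'
        exact Or.inr ⟨hR, h'⟩
    · rintro (h' | ⟨hR, h'⟩)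
      · exact absurd h' hxy
      · rw [← W.v_conj h g x y hR hxy] at h'
        exact Or.inr ⟨hR, h'⟩

theorem E_smul {g h : Γ} (hc : g * h = h * g) {x y : F} : W.E h (g • x) (g • y) ↔ W.E h x y := by
  have := W.E_conj g h (x := x) (y := y)
  rwa [conj_comm_eq hc] at this

/-! ### axioms for arcs -/

theorem Ax.arc_nonneg (A : W.Ax b) {h : Γ} (hh : W.Arc h) {x y : F} (hR : W.R x y) (hn : x ≠ y) :
    0 ≤ W.v h x y := by
  obtain ⟨g, rfl⟩ := hh
  rw [W.v_conj'' _ _ hR hn]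
  exact A.nonneg _ _ (W.R_smul _ hR) (by simpa using hn)

theorem v_T_two {x y : F} (hR : W.R x y) (hn : x ≠ y) : W.v (W.T 2) x y = 2 * W.v (W.s 0) x y := by
  rw [T_two, W.v_mul _ _ x y hR hn rfl]; ring

theorem Ax.s0_ultra (A : W.Ax b) {x y z : F} (hxy : W.R x y) (hyz : W.R y z) (h1 : x ≠ y) (h2 : y ≠ z)
    (h3 : x ≠ z) : min (W.v (W.s 0) x y) (W.v (W.s 0) y z) ≤ W.v (W.s 0) x z := by
  have := A.ultra 2 le_rfl (by have := A.k5; omega) x y z hxy hyz h1 h2 h3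
  rw [W.v_T_two hxy h1, W.v_T_two hyz h2, W.v_T_two (W.R_trans hxy hyz) h3] at this
  rcases min_le_iff.1 this with h | h
  · exact (min_le_left _ _).trans (by linarith)
  · exact (min_le_right _ _).trans (by linarith)

theorem Ax.arc_ultra (A : W.Ax b) {h : Γ} (hh : W.Arc h) {x y z : F} (hxy : W.R x y) (hyz : W.R y z)
    (h1 : x ≠ y) (h2 : y ≠ z) (h3 : x ≠ z) : min (W.v h x y) (W.v h y z) ≤ W.v h x z := by
  obtain ⟨g, rfl⟩ := hh
  rw [W.v_conj'' _ _ hxy h1, W.v_conj'' _ _ hyz h2, W.v_conj'' _ _ (W.R_trans hxy hyz) h3]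
  exact A.s0_ultra (W.R_smul _ hxy) (W.R_smul _ hyz) (by simpa using h1) (by simpa using h2)
    (by simpa using h3)

theorem Ax.E_trans (A : W.Ax b) {h : Γ} (hh : W.Arc h) {x y z : F} (h1 : W.E h x y) (h2 : W.E h y z) :
    W.E h x z := by
  by_cases hxy : x = y
  · rwa [hxy]
  by_cases hyz : y = z
  · rwa [← hyz]
  by_cases hxz : x = z
  · exact Or.inl hxz
  rcases h1 with h1 | h1
  · exact absurd h1 hxy
  rcases h2 with h2 | h2
  · exact absurd h2 hyz
  refine Or.inr ⟨W.R_trans h1.1 h2.1, ?_⟩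
  exact lt_of_lt_of_le (lt_min h1.2 h2.2) (A.arc_ultra hh h1.1 h2.1 hxy hyz hxz)

theorem Ax.v_zero_of_not_E (A : W.Ax b) {h : Γ} (hh : W.Arc h) {x y : F} (hR : W.R x y)
    (hE : ¬ W.E h x y) : W.v h x y = 0 := by
  unfold E at hE
  push Not at hE
  exact le_antisymm (hE.2 hR) (A.arc_nonneg hh hR hE.1)

theorem E_of_pos {h : Γ} {x y : F} (hR : W.R x y) (hp : 0 < W.v h x y) : W.E h x y := Or.inr ⟨hR, hp⟩

/-- corner lemma for arc pairs. -/
theorem Ax.corner2 (A : W.Ax b) {h h' : Γ} (hh : W.Arc2 h h') {x y z : F} (hxy : W.R x y)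
    (hxz : W.R x z) (h1 : x ≠ y) (h2 : x ≠ z) (h3 : y ≠ z) :
    0 ≤ (W.v h x y - W.v h x z) * (W.v h' x y - W.v h' x z) := by
  obtain ⟨g, rfl, rfl⟩ := hh
  rw [W.v_conj'' _ _ hxy h1, W.v_conj'' _ _ hxy h1, W.v_conj'' _ _ hxz h2, W.v_conj'' _ _ hxz h2]
  exact A.corner _ _ _ (W.R_smul _ hxy) (W.R_smul _ hxz) (by simpa using h1) (by simpa using h2)
    (by simpa using h3)

/-- if `y` is in the `h`-class of `x`, `z` is not, and `v h' x z > 0`, then `v h' x y ≥ v h' x z`. -/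
theorem Ax.corner_le (A : W.Ax b) {h h' : Γ} (hk : W.Arc2 h h') {x y z : F} (hy : W.E h x y)
    (hne : x ≠ y) (hxz : W.R x z) (hz : ¬ W.E h x z) : W.v h' x z ≤ W.v h' x y := by
  have hxz' : x ≠ z := fun e => hz (Or.inl e)
  have hyz' : y ≠ z := fun e => hz (e ▸ hy)
  have h0 : W.v h x z = 0 := A.v_zero_of_not_E hk.left hxz hz
  have hp : 0 < W.v h x y := by
    rcases hy with hy | hy
    · exact absurd hy hne
    · exact hy.2
  have := A.corner2 hk hy.toR hxz hne hxz' hyz'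
  rw [h0, sub_zero] at this
  have := nonneg_of_mul_nonneg_right this hp
  linarith

end WSys

end LN6
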