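import Pool.Agent.Helper26.LN6.Cls

/-! LN6: invariant sets of pairs, the homomorphism `chi`. -/

open scoped Classical
open Finset

namespace LN6

namespace WSys

variable {k : ℕ} {Γ F : Type} [Group Γ] [MulAction Γ F] {W : WSys k Γ F} {b : ℝ}

/-- a set of good pairs. -/
def Good (W : WSys k Γ F) (O : Finset (F × F)) : Prop := ∀ p ∈ O, W.R p.1 p.2 ∧ p.1 ≠ p.2

/-- the stabiliser of a set of pairs. -/
def stab (Γ : Type) {F : Type} [Group Γ] [MulAction Γ F] (O : Finset (F × F)) : Subgroup Γ where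
  carrier := {g | ∀ p, g • p ∈ O ↔ p ∈ O}
  mul_mem' := by
    intro a c ha hc p
    rw [mul_smul, ha, hc]
  one_mem' := by
    intro p
    rw [one_smul]
  inv_mem' := by
    intro a ha p
    rw [← ha, smul_inv_smul]

theorem mem_stab {O : Finset (F × F)} {g : Γ} : g ∈ stab Γ O ↔ ∀ p, g • p ∈ O ↔ p ∈ O := Iff.rfl

/-- one inclusion suffices. -/
theorem mem_stab_of {O : Finset (F × F)} {g : Γ} (h : ∀ p ∈ O, g • p ∈ O) : g ∈ stab Γ O := by
  intro p
  constructor
  · intro hp
    have hinj : Function.Injective (fun q : F × F => g • q) := MulAction.injective g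
    have hsub : O.image (fun q => g • q) ⊆ O := by
      intro q hq
      obtain ⟨q', hq', rfl⟩ := mem_image.1 hq
      exact h q' hq'
    have heq : O.image (fun q => g • q) = O := by
      apply eq_of_subset_of_card_le hsub
      rw [card_image_of_injective _ hinj]
    rw [← heq] at hp
    obtain ⟨q, hq, hqp⟩ := mem_image.1 hp
    rwa [← hinj hqp]
  · exact h p

theorem le_stab_of {O : Finset (F × F)} {S : Subgroup Γ} (h : ∀ g ∈ S, ∀ p ∈ O, g • p ∈ O) :
    S ≤ stab Γ O := fun g hg => mem_stab_of (h g hg)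

/-- total winding over `O`. -/
noncomputable def chi (W : WSys k Γ F) (O : Finset (F × F)) (g : Γ) : ℝ := ∑ p ∈ O, W.v g p.1 p.2

theorem chi_mul {O : Finset (F × F)} (hO : W.Good O) {g h : Γ} (hg : g ∈ stab Γ O) (hh : h ∈ stab Γ O) :
    W.chi O (g * h) = W.chi O g + W.chi O h :=
  W.v_sum O g h hO (fun p hp => (hg p).2 hp) (fun p hp => (hh p).2 hp)

theorem chi_one {O : Finset (F × F)} (hO : W.Good O) : W.chi O 1 = 0 :=
  sum_eq_zero fun p hp => W.v_one (hO p hp).1 (hO p hp).2

theorem chi_inv {O : Finset (F × F)} (hO : W.Good O) (g : Γ) : W.chi O g⁻¹ = - W.chi O g := by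
  unfold chi
  rw [← sum_neg_distrib]
  exact sum_congr rfl fun p hp => W.v_inv g (hO p hp).1 (hO p hp).2

theorem chi_conj {O : Finset (F × F)} (hO : W.Good O) {g h : Γ} (hg : g ∈ stab Γ O) (hh : h ∈ stab Γ O) :
    W.chi O (g * h * g⁻¹) = W.chi O h := by
  rw [chi_mul hO (mul_mem hg hh) (inv_mem hg), chi_mul hO hg hh, chi_inv hO]; ring

/-- `s i` and `s j` have the same `chi` if the generators between them stabilise `O`. -/
theorem chi_s_eq {O : Finset (F × F)} (hO : W.Good O) (i : ℕ) (j : ℕ) (hij : i ≤ j) (hj : j + 1 < k)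
    (hs : ∀ l, i ≤ l → l ≤ j → W.s l ∈ stab Γ O) : W.chi O (W.s j) = W.chi O (W.s i) := by
  induction j, hij using Nat.le_induction with
  | base => rfl
  | succ j hij ih =>
    rw [W.s_succ_conj j (by omega), chi_conj hO (mul_mem (hs j hij (by omega)) (hs (j + 1) (by omega) le_rfl))
      (hs j hij (by omega))]
    exact ih (by omega) fun l h1 h2 => hs l h1 (by omega)

section orb

variable [Fintype F]

/-- orbit of a pair. -/
noncomputable def orb (S : Subgroup Γ) (x y : F) : Finset (F × F) :=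
  univ.filter fun p => ∃ g ∈ S, p = (g • x, g • y)

theorem mem_orb {S : Subgroup Γ} {x y : F} {p : F × F} : p ∈ orb S x y ↔ ∃ g ∈ S, p = (g • x, g • y) := by
  simp [orb]

theorem self_mem_orb (S : Subgroup Γ) (x y : F) : (x, y) ∈ orb S x y :=
  mem_orb.2 ⟨1, S.one_mem, by simp⟩

theorem smul_mem_orb {S : Subgroup Γ} {x y : F} {g : Γ} (hg : g ∈ S) {p : F × F} (hp : p ∈ orb S x y) :
    g • p ∈ orb S x y := by
  obtain ⟨h, hh, rfl⟩ := mem_orb.1 hp
  exact mem_orb.2 ⟨g * h, mul_mem hg hh, by simp [mul_smul]⟩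

theorem le_stab_orb (S : Subgroup Γ) (x y : F) : S ≤ stab Γ (orb S x y) :=
  le_stab_of fun _ hg _ hp => smul_mem_orb hg hp

theorem good_orb (S : Subgroup Γ) {x y : F} (hR : W.R x y) (hn : x ≠ y) : W.Good (orb S x y) := by
  intro p hp
  obtain ⟨g, _, rfl⟩ := mem_orb.1 hp
  exact ⟨W.R_smul g hR, by simpa using hn⟩

theorem orb_card_pos (S : Subgroup Γ) (x y : F) : 0 < (orb S x y).card :=
  card_pos.2 ⟨_, self_mem_orb S x y⟩

/-- a sum over the orbit is positive only if a term is positive. -/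
theorem exists_pos_of_chi_pos {O : Finset (F × F)} {g : Γ} (h : 0 < W.chi O g) :
    ∃ p ∈ O, 0 < W.v g p.1 p.2 := by
  by_contra hcon
  push Not at hcon
  exact absurd h (not_lt.2 (sum_nonpos hcon))

theorem chi_T_k (A : W.Ax b) {O : Finset (F × F)} (hO : W.Good O) : W.chi O (W.T k) = O.card * b := by
  unfold chi
  rw [sum_congr rfl fun p hp => A.all p.1 p.2 (hO p hp).1 (hO p hp).2]
  simp

/-- invariant functions are constant on orbits. -/
theorem eq_on_orb {S : Subgroup Γ} {x y : F} {g : Γ} (hc : ∀ h ∈ S, g * h = h * g) (hR : W.R x y)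
    (hn : x ≠ y) : ∀ p ∈ orb S x y, W.v g p.1 p.2 = W.v g x y := by
  intro p hp
  obtain ⟨h, hh, rfl⟩ := mem_orb.1 hp
  exact W.v_smul (hc h hh) hR hn

end orb

end WSys

end LN6
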