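import Pool.Agent.Helper26.LN6.Chi0

/-! LN6: the functions `V m = v (T m)`: positivity, invariance, nested corner for all generators in the disc, class
constancy. -/

open scoped Classical
open Finset

namespace LN6

namespace WSys

variable {k : ℕ} {Γ F : Type} [Group Γ] [MulAction Γ F] {W : WSys k Γ F} {b : ℝ}

theorem chi_lam_disc {O : Finset (F × F)} (hO : W.Good O) (m : ℕ) (hm : m < k) (hs : W.Bm (m + 1) ≤ stab Γ O) :
    W.chi O (W.lam m) = 2 * m * W.chi O (W.s 0) := by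
  induction m with
  | zero =>
    show W.chi O 1 = _
    rw [chi_one hO]
    simp
  | succ m ih =>
    have hs' : W.Bm (m + 1) ≤ stab Γ O := (W.Bm_mono (by omega)).trans hs
    have h1 : W.lam m ∈ stab Γ O := hs' (W.lam_mem_Bm m)
    have h2 : W.s m ∈ stab Γ O := hs (W.s_mem_Bm (by omega))
    rw [lam_succ, chi_mul hO (mul_mem h2 h1) h2, chi_mul hO h2 h1, ih (by omega) hs',
      chi_s_eq hO 0 m (by omega) (by omega) (fun l _ hl => hs (W.s_mem_Bm (by omega)))]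
    push_cast; ring

theorem chi_T_disc {O : Finset (F × F)} (hO : W.Good O) (m : ℕ) (hm : m ≤ k) (hs : W.Bm m ≤ stab Γ O) :
    W.chi O (W.T m) = m * (m - 1) * W.chi O (W.s 0) := by
  induction m with
  | zero =>
    show W.chi O 1 = _
    rw [chi_one hO]
    simp
  | succ m ih =>
    have hs' : W.Bm m ≤ stab Γ O := (W.Bm_mono (by omega)).trans hs
    rw [T_succ, chi_mul hO (hs' (W.T_mem_Bm m)) (hs (W.lam_mem_Bm m)), ih (by omega) hs',
      chi_lam_disc hO m (by omega) hs]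
    push_cast; ring

theorem T_smul_Bm {m : ℕ} (hm : m ≤ k) {g : Γ} (hg : g ∈ W.Bm m) {x y : F} (hR : W.R x y) (hn : x ≠ y) :
    W.v (W.T m) (g • x) (g • y) = W.v (W.T m) x y :=
  W.v_smul (W.Bm_commute_T hm hg).symm.eq hR hn

theorem T_smul_s {m i : ℕ} (hm : m ≤ k) (hi : i + 1 < k) (him : i + 1 ≠ m) {x y : F} (hR : W.R x y) (hn : x ≠ y) :
    W.v (W.T m) (W.s i • x) (W.s i • y) = W.v (W.T m) x y :=
  W.v_smul (W.T_commute_s m i hm hi him).eq hR hn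

section
variable [Fintype F]

/-- the average formula over the `Bm m`-orbit of a pair. -/
theorem T_avg {m : ℕ} (hm : m ≤ k) {x y : F} (hR : W.R x y) (hn : x ≠ y) :
    ((orb (W.Bm m) x y).card : ℝ) * W.v (W.T m) x y = m * (m - 1) * W.chi (orb (W.Bm m) x y) (W.s 0) := by
  rw [← chi_T_disc (W.good_orb _ hR hn) m hm (le_stab_orb _ x y)]
  unfold chi
  rw [sum_congr rfl fun p hp => eq_on_orb (W := W) (g := W.T m)
    (fun h hh => (W.Bm_commute_T hm hh).symm.eq) hR hn p hp]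
  simp

omit [Fintype F] in
theorem Ax.chi_s0_nonneg (A : W.Ax b) {O : Finset (F × F)} (hO : W.Good O) : 0 ≤ W.chi O (W.s 0) :=
  sum_nonneg fun p hp => A.nonneg _ _ (hO p hp).1 (hO p hp).2

omit [Fintype F] in
theorem Ax.chi_arc_nonneg (A : W.Ax b) {h : Γ} (hh : W.Arc h) {O : Finset (F × F)} (hO : W.Good O) :
    0 ≤ W.chi O h :=
  sum_nonneg fun p hp => A.arc_nonneg hh (hO p hp).1 (hO p hp).2

theorem Ax.T_nonneg (A : W.Ax b) {m : ℕ} (hm : m ≤ k) {x y : F} (hR : W.R x y) (hn : x ≠ y) :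
    0 ≤ W.v (W.T m) x y := by
  rcases Nat.eq_zero_or_pos m with rfl | hm0
  · show 0 ≤ W.v 1 x y
    rw [W.v_one hR hn]
  have h1 := T_avg (W := W) hm hR hn
  have h2 := A.chi_s0_nonneg (W.good_orb (W.Bm m) hR hn)
  have h3 : 0 < ((orb (W.Bm m) x y).card : ℝ) := by exact_mod_cast orb_card_pos (W.Bm m) x y
  have h4 : (1 : ℝ) ≤ m := by exact_mod_cast hm0
  have h5 : 0 ≤ ((orb (W.Bm m) x y).card : ℝ) * W.v (W.T m) x y := by
    rw [h1]
    exact mul_nonneg (mul_nonneg (by linarith) (by linarith)) h2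
  exact nonneg_of_mul_nonneg_right h5 h3

/-- if `V m` is positive then some translate of the pair is `s 0`-positive. -/
theorem Ax.exists_of_T_pos (_A : W.Ax b) {m : ℕ} (hm : m ≤ k) {x y : F} (hR : W.R x y) (hn : x ≠ y)
    (hp : 0 < W.v (W.T m) x y) : ∃ g ∈ W.Bm m, 0 < W.v (W.s 0) (g • x) (g • y) := by
  have h1 := T_avg (W := W) hm hR hn
  have h3 : 0 < ((orb (W.Bm m) x y).card : ℝ) := by exact_mod_cast orb_card_pos (W.Bm m) x y
  have h4 : (0 : ℝ) < m * (m - 1) * W.chi (orb (W.Bm m) x y) (W.s 0) := by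
    rw [← h1]
    exact mul_pos h3 hp
  have h5 : 0 < W.chi (orb (W.Bm m) x y) (W.s 0) := by
    have hm0 : (0 : ℝ) ≤ m * (m - 1) := by
      rcases Nat.eq_zero_or_pos m with rfl | h
      · simp
      · have : (1 : ℝ) ≤ m := by exact_mod_cast h
        exact mul_nonneg (by linarith) (by linarith)
    by_contra hc
    push Not at hc
    exact absurd h4 (not_lt.2 (mul_nonpos_of_nonneg_of_nonpos hm0 hc))
  obtain ⟨p, hp, h6⟩ := exists_pos_of_chi_pos h5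
  obtain ⟨g, hg, rfl⟩ := mem_orb.1 hp
  exact ⟨g, hg, h6⟩

/-- `V m` is positive as soon as a generator in the disc is. -/
theorem Ax.T_pos_of_conj (A : W.Ax b) {m : ℕ} (h2m : 2 ≤ m) (hm : m ≤ k) {g : Γ} (hg : g ∈ W.Bm m) {x y : F}
    (hR : W.R x y) (hn : x ≠ y) (hp : 0 < W.v (g * W.s 0 * g⁻¹) x y) : 0 < W.v (W.T m) x y := by
  have h1 := T_avg (W := W) hm hR hn
  have h3 : 0 < ((orb (W.Bm m) x y).card : ℝ) := by exact_mod_cast orb_card_pos (W.Bm m) x y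
  have h4 : 0 < W.chi (orb (W.Bm m) x y) (W.s 0) := by
    refine sum_pos' (fun p hp => ?_) ⟨(g⁻¹ • x, g⁻¹ • y), ?_, ?_⟩
    · have := W.good_orb (W.Bm m) hR hn p hp
      exact A.nonneg _ _ this.1 this.2
    · exact mem_orb.2 ⟨g⁻¹, inv_mem hg, rfl⟩
    · rwa [W.v_conj'' _ _ hR hn] at hp
  have h5 : (2 : ℝ) ≤ m := by exact_mod_cast h2m
  have h6 : (0 : ℝ) < m * (m - 1) * W.chi (orb (W.Bm m) x y) (W.s 0) :=
    mul_pos (mul_pos (by linarith) (by linarith)) h4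
  rw [← h1] at h6
  by_contra hc
  push Not at hc
  exact absurd h6 (not_lt.2 (mul_nonpos_of_nonneg_of_nonpos h3.le hc))

theorem Ax.T_pos_of_s (A : W.Ax b) {m i : ℕ} (him : i + 2 ≤ m) (hm : m ≤ k) {x y : F} (hR : W.R x y) (hn : x ≠ y)
    (hp : 0 < W.v (W.s i) x y) : 0 < W.v (W.T m) x y := by
  obtain ⟨g, hg, he⟩ := W.s_conj_zero i (by omega)
  rw [he] at hp
  exact A.T_pos_of_conj (by omega) hm (W.Bm_mono him hg) hR hn hp

end

/-- nested corner for `(g s 0 g⁻¹, T m)`, `g ∈ Bm m`. -/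
theorem Ax.nest_conj (A : W.Ax b) {m : ℕ} (h3m : 3 ≤ m) (hm : m < k) {g : Γ} (hg : g ∈ W.Bm m) {x y z : F}
    (hxy : W.R x y) (hxz : W.R x z) (h1 : x ≠ y) (h2 : x ≠ z) (h3 : y ≠ z) :
    0 ≤ (W.v (g * W.s 0 * g⁻¹) x y - W.v (g * W.s 0 * g⁻¹) x z) * (W.v (W.T m) x y - W.v (W.T m) x z) := by
  rw [W.v_conj'' _ _ hxy h1, W.v_conj'' _ _ hxz h2, ← T_smul_Bm hm.le (inv_mem hg) hxy h1,
    ← T_smul_Bm hm.le (inv_mem hg) hxz h2]
  exact A.nest m h3m hm _ _ _ (W.R_smul _ hxy) (W.R_smul _ hxz) (by simpa using h1) (by simpa using h2)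
    (by simpa using h3)

theorem Ax.nest_s (A : W.Ax b) {m i : ℕ} (h3m : 3 ≤ m) (hm : m < k) (him : i + 2 ≤ m) {x y z : F}
    (hxy : W.R x y) (hxz : W.R x z) (h1 : x ≠ y) (h2 : x ≠ z) (h3 : y ≠ z) :
    0 ≤ (W.v (W.s i) x y - W.v (W.s i) x z) * (W.v (W.T m) x y - W.v (W.T m) x z) := by
  obtain ⟨g, hg, he⟩ := W.s_conj_zero i (by omega)
  rw [he]
  exact A.nest_conj h3m hm (W.Bm_mono him hg) hxy hxz h1 h2 h3

/-- `y` in the class of `x`, `z` outside: `V m x z ≤ V m x y` (general arc in the disc). -/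
theorem Ax.nest_le_conj (A : W.Ax b) {m : ℕ} (h3m : 3 ≤ m) (hm : m < k) {g : Γ} (hg : g ∈ W.Bm m) {x y z : F}
    (hy : W.E (g * W.s 0 * g⁻¹) x y) (hne : x ≠ y) (hxz : W.R x z) (hz : ¬ W.E (g * W.s 0 * g⁻¹) x z) :
    W.v (W.T m) x z ≤ W.v (W.T m) x y := by
  have hh : W.Arc (g * W.s 0 * g⁻¹) := ⟨g, rfl⟩
  have hxz' : x ≠ z := fun e => hz (Or.inl e)
  have hyz' : y ≠ z := fun e => hz (e ▸ hy)
  have h0 : W.v (g * W.s 0 * g⁻¹) x z = 0 := A.v_zero_of_not_E hh hxz hz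
  have hp : 0 < W.v (g * W.s 0 * g⁻¹) x y := by
    rcases hy with hy | hy
    · exact absurd hy hne
    · exact hy.2
  have h1 := A.nest_conj h3m hm hg hy.toR hxz hne hxz' hyz'
  rw [h0, sub_zero] at h1
  by_contra hcon
  push Not at hcon
  have : W.v (g * W.s 0 * g⁻¹) x y * (W.v (W.T m) x y - W.v (W.T m) x z) < 0 :=
    mul_neg_of_pos_of_neg hp (by linarith)
  linarith

/-- class constancy (general arc in the disc). -/
theorem Ax.CC_conj (A : W.Ax b) {m : ℕ} (h3m : 3 ≤ m) (hm : m < k) {g : Γ} (hg : g ∈ W.Bm m) {x y z : F}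
    (hy : W.E (g * W.s 0 * g⁻¹) x y) (hxz : W.R x z) (hz : ¬ W.E (g * W.s 0 * g⁻¹) x z) :
    W.v (W.T m) y z = W.v (W.T m) x z := by
  have hh : W.Arc (g * W.s 0 * g⁻¹) := ⟨g, rfl⟩
  by_cases hne : x = y
  · rw [hne]
  have hyz : ¬ W.E (g * W.s 0 * g⁻¹) y z := fun h => hz (A.E_trans hh hy h)
  have hRyz : W.R y z := W.R_trans (W.R_symm hy.toR) hxz
  have h1 := A.nest_le_conj h3m hm hg hy hne hxz hz
  have h2 := A.nest_le_conj h3m hm hg hy.symm (Ne.symm hne) hRyz hyz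
  have hxz' : x ≠ z := fun e => hz (Or.inl e)
  have hyz' : y ≠ z := fun e => hyz (Or.inl e)
  rw [W.v_symm (W.T m) y x] at h2
  -- ultrametric
  have u1 := A.ultra m (by omega) hm y x z (W.R_symm hy.toR) hxz (Ne.symm hne) hxz' hyz'
  have u2 := A.ultra m (by omega) hm x y z hy.toR hRyz hne hyz' hxz'
  rw [W.v_symm (W.T m) y x] at u1
  rw [min_eq_right h1] at u1
  rw [min_eq_right h2] at u2
  exact le_antisymm u2 u1

theorem Ax.nest_le (A : W.Ax b) {m i : ℕ} (h3m : 3 ≤ m) (hm : m < k) (him : i + 2 ≤ m) {x y z : F}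
    (hy : W.E (W.s i) x y) (hne : x ≠ y) (hxz : W.R x z) (hz : ¬ W.E (W.s i) x z) :
    W.v (W.T m) x z ≤ W.v (W.T m) x y := by
  obtain ⟨g, hg, he⟩ := W.s_conj_zero i (by omega)
  rw [he] at hy hz
  exact A.nest_le_conj h3m hm (W.Bm_mono him hg) hy hne hxz hz

/-- (CC) -/
theorem Ax.CC (A : W.Ax b) {m i : ℕ} (h3m : 3 ≤ m) (hm : m < k) (him : i + 2 ≤ m) {x y z : F}
    (hy : W.E (W.s i) x y) (hxz : W.R x z) (hz : ¬ W.E (W.s i) x z) :
    W.v (W.T m) y z = W.v (W.T m) x z := by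
  obtain ⟨g, hg, he⟩ := W.s_conj_zero i (by omega)
  rw [he] at hy hz
  exact A.CC_conj h3m hm (W.Bm_mono him hg) hy hxz hz

end WSys

end LN6
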